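import Pool.Agent.H24.KTH.Top

/-!
# (EFR): the entropy bound for Kakeya families, from level zero
-/

set_option autoImplicit false

namespace Pool.Agent.H51.KTH

open Finset Real
open Pool.Agent.H49.Ent Pool.Agent.H32.Dense Pool.Agent.H24.KTH

/-- The rounded position of the line with rounded direction is within 1 of the rounded position. -/
lemma rd_pos_close {m : ℕ} (J : ℕ) (u d : Fin m → ℝ) (T : ℕ) (hT : T < 2 ^ J) (k : Fin m) :
    |((rd (pos (2 ^ J) (fun i => 2 ^ J * u i) (fun i => ⌊(2 : ℝ) ^ J * d i⌋) (T : ℤ)) k -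
      ⌊(2 : ℝ) ^ J * (u k + (T : ℝ) / 2 ^ J * d k)⌋ : ℤ) : ℝ)| ≤ 1 := by
  have hM : (0 : ℝ) < 2 ^ J := by positivity
  have hT' : (T : ℝ) < 2 ^ J := by exact_mod_cast hT
  have hT0 : (0 : ℝ) ≤ T := Nat.cast_nonneg T
  set x : ℝ := 2 ^ J * u k + (T : ℝ) / 2 ^ J * (⌊(2 : ℝ) ^ J * d k⌋ : ℤ) with hx
  set y : ℝ := (2 : ℝ) ^ J * (u k + (T : ℝ) / 2 ^ J * d k) with hy
  have e1 : rd (pos (2 ^ J) (fun i => 2 ^ J * u i) (fun i => ⌊(2 : ℝ) ^ J * d i⌋) (T : ℤ)) k =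
      ⌊x⌋ := by
    simp only [rd, pos, hx]
    push_cast
    rfl
  rw [e1]
  have f1 : y - x = (T : ℝ) / 2 ^ J * Int.fract ((2 : ℝ) ^ J * d k) := by
    rw [hx, hy, Int.fract]
    ring
  have f2 : 0 ≤ y - x := by
    rw [f1]
    have := Int.fract_nonneg ((2 : ℝ) ^ J * d k)
    positivity
  have f3 : y - x < 1 := by
    rw [f1]
    have h1 := Int.fract_nonneg ((2 : ℝ) ^ J * d k)
    have h2 := Int.fract_lt_one ((2 : ℝ) ^ J * d k)
    have h3 : (T : ℝ) / 2 ^ J < 1 := by rw [div_lt_one hM]; exact hT'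
    have h4 : 0 ≤ (T : ℝ) / 2 ^ J := by positivity
    nlinarith
  have g1 : ⌊x⌋ ≤ ⌊y⌋ := Int.floor_le_floor (by linarith)
  have g2 : ⌊y⌋ ≤ ⌊x⌋ + 1 := by
    have : ⌊y⌋ ≤ ⌊x + 1⌋ := Int.floor_le_floor (by linarith)
    rwa [Int.floor_add_one] at this
  have g3 : |⌊x⌋ - ⌊y⌋| ≤ 1 := by
    rw [abs_le]
    constructor <;> omega
  exact_mod_cast g3

theorem efr (hS : SECStmt) : EFRStmt := by
  intro m s hL ε hε
  obtain ⟨θ, hθ, J₀, hL⟩ := hL (ε / 2) (by positivity)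
  refine ⟨θ, hθ, max J₀ ⌈(m * Real.log 5) / (ε / 2 * Real.log 2)⌉₊, fun J hJ F hu hT hD => ?_⟩
  have hJ0 : J₀ ≤ J := (le_max_left _ _).trans hJ
  have hJ1 : (m * Real.log 5) / (ε / 2 * Real.log 2) ≤ (J : ℝ) := by
    refine (Nat.le_ceil _).trans ?_
    exact_mod_cast (le_max_right _ _).trans hJ
  have hl2 : 0 < Real.log 2 := Real.log_pos (by norm_num)
  have hJ2 : m * Real.log 5 ≤ ε / 2 * (J * Real.log 2) := by
    rw [div_le_iff₀ (by positivity)] at hJ1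
    linarith
  have hM : (0 : ℝ) < 2 ^ J := by positivity
  have hp := F.isLaw.nonneg
  have h1 := F.isLaw.sum_one
  obtain ⟨Ω', iΩ, p', ζ, Z, pr, hp', hmg, hdet, hH, hCH⟩ :=
    hS F.Ω F.p hp h1 (Fin m → ℤ) ((Fin m → ℝ) × (Fin m → ℝ)) (F.D J) F.l (by
      intro ω ω' _ _ h
      have h2 := (Prod.ext_iff.mp h).2
      simp only [Pool.KA.Fam.l] at h2
      simp only [Pool.KA.Fam.D, h2])
  have h1' : ∑ w, p' w = 1 := hmg.sum.trans h1
  -- the family
  have hfam : IsFam (2 ^ J) p' Z (fun w => F.D J (pr w)) (fun w i => 2 ^ J * F.u (pr w) i)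
      (fun w => ((F.T (pr w) : ℕ) : ℤ)) := by
    refine ⟨by positivity, hp', h1', ?_, ?_, ?_⟩
    · intro w _ k
      have hd := F.dir (pr w) k
      rw [abs_le] at hd
      simp only [Pool.KA.Fam.D, Pool.STK.fl, rd]
      push_cast
      rw [abs_le]
      constructor
      · rw [Int.le_floor]
        push_cast
        nlinarith
      · have : (⌊(2 : ℝ) ^ J * F.d (pr w) k⌋ : ℝ) ≤ 2 ^ J := by
          refine (Int.floor_le _).trans ?_
          nlinarith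
        exact_mod_cast this
    · intro w w' a b h
      have h2 := hdet w w' a b h
      simp only [Pool.KA.Fam.l, Prod.mk.injEq] at h2
      simp only [h2.1]
    · intro w _
      refine ⟨by positivity, ?_⟩
      exact_mod_cast F.tim (pr w)
  have hT1 : CH p' (fun w => ((F.T (pr w) : ℕ) : ℤ)) (fun w => (F.D J (pr w), Z w)) =
      CH p' (fun w => F.T (pr w)) (fun w => (F.D J (pr w), Z w)) := by
    refine CH_congr hp' ?_ ?_ (fun _ _ _ _ h => h) (fun _ _ _ _ h => h)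
    · intro w w' _ _ h
      have := (Prod.ext_iff.mp h).1
      simp only at this
      exact_mod_cast this
    · intro w w' _ _ h
      have := (Prod.ext_iff.mp h).1
      simp only at this
      simp only [this]
  have hT2 : (J : ℝ) * Real.log 2 - θ * J ≤ CH p' (fun w => F.T (pr w))
      (fun w => (F.D J (pr w), Z w)) := by
    refine le_trans ?_ (hCH ℕ F.T)
    refine le_trans hT ?_
    exact CH_mono_cond hp (fun ω ω' _ _ h => (Prod.ext_iff.mp h).1)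
  have hK : Kf (2 ^ J) p' (bv Z (fun w => F.D J (pr w))) (fun w => ((F.T (pr w) : ℕ) : ℤ)) ≤
      θ * J := by
    unfold Kf bv
    rw [hT1]
    push_cast
    rw [Real.log_pow]
    linarith
  have hv : ((m : ℝ) - θ) * (J * Real.log 2) ≤ CH p' (fun w => F.D J (pr w)) Z := by
    rw [hH]; exact hD
  have hfin := hL J hJ0 Ω' ζ p' Z (fun w => F.D J (pr w)) (fun w i => 2 ^ J * F.u (pr w) i)
      (fun w => ((F.T (pr w) : ℕ) : ℤ)) hfam hK hv
  -- the slice
  set R : F.Ω → Fin m → ℤ := fun ω => rd (pos (2 ^ J) (fun i => 2 ^ J * F.u ω i) (F.D J ω)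
    ((F.T ω : ℕ) : ℤ)) with hR
  have hS1 : Sf (2 ^ J) p' Z (fun w => F.D J (pr w)) (fun w i => 2 ^ J * F.u (pr w) i)
      (fun w => ((F.T (pr w) : ℕ) : ℤ)) ≤ CH p' (fun w => R (pr w)) (fun w => F.T (pr w)) := by
    unfold Sf
    refine CH_mono_cond hp' ?_
    intro w w' _ _ h
    have := (Prod.ext_iff.mp h).2
    simp only at this
    exact_mod_cast this
  have hS2 : CH p' (fun w => R (pr w)) (fun w => F.T (pr w)) = CH F.p R F.T := hmg.CH R F.T
  have hS3 : CH F.p R F.T ≤ CH F.p (F.X J) F.T + CH F.p R (fun ω => (F.X J ω, F.T ω)) :=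
    CH_le_add hp R (F.X J) F.T
  have hS4 : CH F.p R (fun ω => (F.X J ω, F.T ω)) ≤ m * Real.log 5 := by
    refine (CH_le_vec hp h1 R (fun ω => (F.X J ω, F.T ω)) (fun _ => 2) ?_).trans ?_
    · intro ω ω' _ _ h k
      have e1 := rd_pos_close J (F.u ω) (F.d ω) (F.T ω) (F.tim ω) k
      have e2 := rd_pos_close J (F.u ω') (F.d ω') (F.T ω') (F.tim ω') k
      have e3 : F.X J ω k = F.X J ω' k := congrFun (Prod.ext_iff.mp h).1 k
      have e4 : F.X J ω k = ⌊(2 : ℝ) ^ J * (F.u ω k + (F.T ω : ℝ) / 2 ^ J * F.d ω k)⌋ := rfl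
      have e5 : F.X J ω' k = ⌊(2 : ℝ) ^ J * (F.u ω' k + (F.T ω' : ℝ) / 2 ^ J * F.d ω' k)⌋ := rfl
      rw [← e4] at e1
      rw [← e5, ← e3] at e2
      have e6 : R ω k = rd (pos (2 ^ J) (fun i => 2 ^ J * F.u ω i)
        (fun i => ⌊(2 : ℝ) ^ J * F.d ω i⌋) ((F.T ω : ℕ) : ℤ)) k := rfl
      have e7 : R ω' k = rd (pos (2 ^ J) (fun i => 2 ^ J * F.u ω' i)
        (fun i => ⌊(2 : ℝ) ^ J * F.d ω' i⌋) ((F.T ω' : ℕ) : ℤ)) k := rfl
      rw [← e6] at e1
      rw [← e7] at e2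
      rw [abs_le] at e1 e2 ⊢
      push_cast at e1 e2 ⊢
      constructor <;> linarith [e1.1, e1.2, e2.1, e2.2]
    · rw [Ex_const h1]
      norm_num
  have hfin2 : (s - ε / 2) * (J * Real.log 2) ≤ CH F.p (F.X J) F.T + m * Real.log 5 := by
    refine hfin.trans (hS1.trans ?_)
    rw [hS2]
    linarith
  linarith

end Pool.Agent.H51.KTH
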