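import Pool.Agent.H24.KTH.Top

/-!
# (LPL): level one plus, from level one, (RED) and (CAP)
-/

set_option autoImplicit false

namespace Pool.Agent.H51.KTH

open Finset Real
open Pool.Agent.H49.Ent Pool.Agent.H32.Dense Pool.Agent.H24.KTH

lemma kp_nonneg {a : ℝ} (h1 : 1.6 ≤ a) (h2 : a ≤ 1.7) : 0 ≤ kp a := by
  unfold kp
  apply div_nonneg <;> nlinarith

lemma kp_le_one {a : ℝ} (h1 : 1.6 ≤ a) : kp a ≤ 1 := by
  unfold kp
  rw [div_le_one (by nlinarith)]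
  nlinarith

theorem lpl (hR : REDStmt) (hC : CAPStmt) : LPLStmt := by
  intro d a ha1 ha2 hL ε hε
  have hk0 := kp_nonneg ha1 ha2
  have hk1 := kp_le_one ha1
  obtain ⟨N, hN⟩ : ∃ N : ℕ, 8 / ε ≤ (N : ℝ) := ⟨⌈8 / ε⌉₊, Nat.le_ceil _⟩
  have hN0 : (0 : ℝ) < N := lt_of_lt_of_le (by positivity) hN
  have hN1 : 0 < N := by exact_mod_cast hN0
  have hN2 : 1 / (N : ℝ) ≤ ε / 8 := by
    rw [div_le_iff₀ hε] at hN
    rw [div_le_iff₀ hN0]
    linarith
  obtain ⟨θ₁, hθ₁, J₁, hL⟩ := hL (ε / 8) (by positivity)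
  obtain ⟨C, J₂, hR⟩ := hR d N hN1 (ε / 24) (by positivity)
  obtain ⟨C', hC⟩ := hC d N hN1
  refine ⟨N, hN1, min (θ₁ / 2) (ε / 16), by positivity,
    max (max J₁ J₂) (max ⌈|C| / (θ₁ / 2)⌉₊ ⌈(2 * |C| + |C'|) / (ε / 8)⌉₊), ?_⟩
  intro J hJ Ω _ ζ p Z v u τ hF hK
  have hJ1 : J₁ ≤ J := ((le_max_left _ _).trans (le_max_left _ _)).trans hJ
  have hJ2 : J₂ ≤ J := ((le_max_right _ _).trans (le_max_left _ _)).trans hJ
  have hJ3 : |C| ≤ θ₁ / 2 * J := by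
    have h : |C| / (θ₁ / 2) ≤ (J : ℝ) := by
      refine (Nat.le_ceil _).trans ?_
      exact_mod_cast ((le_max_left _ _).trans (le_max_right _ _)).trans hJ
    rw [div_le_iff₀ (by positivity)] at h
    linarith
  have hJ4 : 2 * |C| + |C'| ≤ ε / 8 * J := by
    have h : (2 * |C| + |C'|) / (ε / 8) ≤ (J : ℝ) := by
      refine (Nat.le_ceil _).trans ?_
      exact_mod_cast ((le_max_right _ _).trans (le_max_right _ _)).trans hJ
    rw [div_le_iff₀ (by positivity)] at h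
    linarith
  have hJn : (0 : ℝ) ≤ J := Nat.cast_nonneg J
  have hK1 : Kf (2 ^ J) p (bv Z v) τ ≤ θ₁ / 2 * J :=
    hK.trans (mul_le_mul_of_nonneg_right (min_le_left _ _) hJn)
  have hK2 : Kf (2 ^ J) p (bv Z v) τ ≤ ε / 16 * J :=
    hK.trans (mul_le_mul_of_nonneg_right (min_le_right _ _) hJn)
  obtain ⟨w, hw, hF', hK', hY', hS'⟩ := hR J hJ2 Ω ζ p Z v u τ hF
  have hCC := hC J Ω ζ p Z v w hF.hp hF.h1 (by
    intro ω hω k
    have := hF.hv ω hω k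
    push_cast at this
    exact this) hw
  have hC2 := hCC.2.1
  have hcC : C ≤ |C| := le_abs_self C
  have hcC' : C' ≤ |C'| := le_abs_self C'
  have hLev := hL J hJ1 Ω _ p _ v u τ hF' (by linarith)
  refine ⟨w, hw, ?_⟩
  set c : ℝ := CH p (fun ω => cap J (lev J N (w ω)) (v ω)) (fun ω => (w ω, Z ω)) with hc
  set Sp : ℝ := Sf (2 ^ J) p (fun ω => (cap J (lev J N (w ω)) (v ω), w ω, Z ω)) v u τ with hSp
  set Yp : ℝ := Yf (2 ^ J) p (fun ω => (cap J (lev J N (w ω)) (v ω), w ω, Z ω)) v u τ with hYp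
  set E : ℝ := Ex p (fun ω => (w ω : ℝ)) / N with hE
  set S : ℝ := Sf (2 ^ J) p Z v u τ with hS
  set K : ℝ := Kf (2 ^ J) p (bv Z v) τ with hKd
  set X : ℝ := CH p v (fun ω => (cap J (lev J N (w ω)) (v ω), w ω, Z ω)) with hX
  have f1 : kp a * Yp ≤ kp a * (E * (J * Real.log 2)) + (1 / N + ε / 24) * J := by
    have g1 := mul_le_mul_of_nonneg_left hY' hk0
    have g2 : kp a * ((1 / (N : ℝ) + ε / 24) * J) ≤ 1 * ((1 / (N : ℝ) + ε / 24) * J) :=
      mul_le_mul_of_nonneg_right hk1 (by positivity)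
    linarith
  have f2 : a * (Sp + c) ≤ a * (S + K + ε / 24 * J + C) :=
    mul_le_mul_of_nonneg_left hS' (by linarith)
  have f3 : a * (K + ε / 24 * J + C) ≤ 2 * (ε / 16 * J + ε / 24 * J + |C|) := by
    have g1 : K + ε / 24 * J + C ≤ ε / 16 * J + ε / 24 * J + |C| := by linarith
    have g2 : 0 ≤ ε / 16 * J + ε / 24 * J + |C| := by positivity
    calc a * (K + ε / 24 * J + C) ≤ a * (ε / 16 * J + ε / 24 * J + |C|) :=
          mul_le_mul_of_nonneg_left g1 (by linarith)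
      _ ≤ 2 * (ε / 16 * J + ε / 24 * J + |C|) := mul_le_mul_of_nonneg_right (by linarith) g2
  have f4 : 1 / (N : ℝ) * J ≤ ε / 8 * J := mul_le_mul_of_nonneg_right hN2 hJn
  nlinarith [f1, f2, f3, f4, hLev, hC2, hJ4, hcC', mul_nonneg hε.le hJn]

end Pool.Agent.H51.KTH
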